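import Pool.Agent.K1H26.PC.Quant

/-!
# The optimal pairwise coupling ratio stays bounded as `q → 1⁻`

For every `q ∈ [1/2, 1)` the optimal pairwise coupling ratio of `𝒫(ℝ)` for the cost `|x - y|^q` is
at most `3300`.  With the two known facts of the problem file (the bound `10.55 / (1 - q)`, used
for `q < 1/2`, and the value `1` for `q ≥ 1`) this answers Q1 affirmatively.

The definitions (`Pool.Agent.R972.PC.Defs`) are those of the starting file `RatioAboveTwo`, which
settles Q2; nothing else of that library is used.  The coupling is built in
`Pool.Agent.K1H26.PC.*`: after the change of variables `x = sinh t` every measure is sampled along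
a randomly shifted `b`-adic tree with `b ≈ 2^{1/(1-q)}`, the child of each cell being chosen by the
quantile coupling with a common uniform variable for each level.
-/

set_option autoImplicit false

open MeasureTheory Pool.Agent.R972.PC
open scoped ENNReal

theorem Pool.Agent.Results.MP_ee92c9_pr.UniformRatio.result :
    ∀ q : ℝ, 1 / 2 ≤ q → q < 1 → optRatio q ≤ 3300 :=
  fun _ hq hq1 => Pool.Agent.K1H26.PC.optRatio_quant hq hq1
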